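import Mathlib

set_option autoImplicit false

open Filter

namespace Pool.Agent.Results.MP_55c7a7_lc.FreeSemigroup

/-- The Rudin-Keisler preorder: `u ≤ v` iff `u = f(v)` for some `f : ω → ω`. -/
def RKLe (u v : Ultrafilter ℕ) : Prop := ∃ f : ℕ → ℕ, u = v.map f

/-- `u ≅ v` iff `u ≤ v ≤ u` in the Rudin-Keisler preorder. -/
def Iso (u v : Ultrafilter ℕ) : Prop := RKLe u v ∧ RKLe v u

/-- `u` is a nonprincipal ultrafilter on `ω`. -/
def NonPrincipal (u : Ultrafilter ℕ) : Prop := ∀ n : ℕ, u ≠ pure n

/-- `u` is a weak P-point: nonprincipal and not in the closure (in `βω`) of any countable set of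
nonprincipal ultrafilters different from `u`. -/
def WeakPPoint (u : Ultrafilter ℕ) : Prop :=
  NonPrincipal u ∧ ∀ D : Set (Ultrafilter ℕ), D.Countable →
    (∀ d ∈ D, NonPrincipal d ∧ d ≠ u) → u ∉ closure D

/-- The tensor product `u ⊗ v`, transferred to `ω` by the pairing bijection `Nat.pair`:
`X ∈ u ⊗ v` iff `{i | {j | Nat.pair i j ∈ X} ∈ v} ∈ u`. -/
def tensor (u v : Ultrafilter ℕ) : Ultrafilter ℕ :=
  u.bind fun i => v.map fun j => Nat.pair i j

theorem mem_tensor (u v : Ultrafilter ℕ) (X : Set ℕ) :
    X ∈ tensor u v ↔ {i | {j | Nat.pair i j ∈ X} ∈ v} ∈ u := Iff.rfl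

/-- The product `a₁ ⊗ (a₂ ⊗ (⋯ ⊗ aₘ))` of a nonempty word (with a junk value at the empty
word). -/
def wordProd : List (Ultrafilter ℕ) → Ultrafilter ℕ
  | [] => pure 0
  | [a] => a
  | a :: b :: l => tensor a (wordProd (b :: l))

/-! ### Basic facts -/

theorem mem_bind {a : Ultrafilter ℕ} {x : ℕ → Ultrafilter ℕ} {s : Set ℕ} :
    s ∈ a.bind x ↔ ∀ᶠ i in (a : Filter ℕ), s ∈ x i := Iff.rfl

theorem ev_iff {a : Ultrafilter ℕ} {p : ℕ → Prop} :
    (∀ᶠ i in (a : Filter ℕ), p i) ↔ {i | p i} ∈ a := Iff.rfl

theorem mem_iff_of_map_eq_pure {u : Ultrafilter ℕ} {f : ℕ → ℕ} {n : ℕ}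
    (h : u.map f = pure n) : {z | f z = n} ∈ u := by
  have h1 : ({n} : Set ℕ) ∈ u.map f := by
    rw [h]; exact Ultrafilter.mem_pure.2 rfl
  exact h1

theorem map_eq_pure_of_mem {u : Ultrafilter ℕ} {f : ℕ → ℕ} {n : ℕ}
    (h : {z | f z = n} ∈ u) : u.map f = pure n := by
  apply Ultrafilter.eq_of_le
  rw [Ultrafilter.coe_pure]
  exact Filter.le_pure_iff.2 h

theorem map_congr {u : Ultrafilter ℕ} {f g : ℕ → ℕ} (h : ∀ᶠ z in (u : Filter ℕ), f z = g z) :
    u.map f = u.map g := by
  ext s
  simp only [Ultrafilter.mem_map]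
  constructor
  · intro hs
    filter_upwards [hs, h] with z hz hz'
    simpa [Set.mem_preimage, hz'] using hz
  · intro hs
    filter_upwards [hs, h] with z hz hz'
    simpa [Set.mem_preimage, hz'] using hz

theorem map_map' (u : Ultrafilter ℕ) (f g : ℕ → ℕ) : (u.map f).map g = u.map (g ∘ f) := rfl

theorem map_id' (u : Ultrafilter ℕ) : u.map id = u := by
  ext s; rfl

theorem bind_map' (a : Ultrafilter ℕ) (x : ℕ → Ultrafilter ℕ) (f : ℕ → ℕ) :
    (a.bind x).map f = a.bind fun i => (x i).map f := rfl

theorem bind_congr {a : Ultrafilter ℕ} {x y : ℕ → Ultrafilter ℕ}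
    (h : ∀ᶠ i in (a : Filter ℕ), x i = y i) : a.bind x = a.bind y := by
  ext s
  rw [mem_bind, mem_bind]
  constructor
  · intro hs
    filter_upwards [hs, h] with i hi hi'
    rwa [← hi']
  · intro hs
    filter_upwards [hs, h] with i hi hi'
    rwa [hi']

theorem bind_pure' (a : Ultrafilter ℕ) (g : ℕ → ℕ) : (a.bind fun i => pure (g i)) = a.map g := by
  ext s
  rw [mem_bind, Ultrafilter.mem_map]
  rfl

theorem not_ev {a : Ultrafilter ℕ} {p : ℕ → Prop} :
    (¬ ∀ᶠ i in (a : Filter ℕ), p i) ↔ ∀ᶠ i in (a : Filter ℕ), ¬ p i :=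
  Ultrafilter.eventually_not.symm

theorem NonPrincipal.ne {a : Ultrafilter ℕ} (ha : NonPrincipal a) (n : ℕ) :
    ∀ᶠ i in (a : Filter ℕ), i ≠ n := by
  rw [← not_ev (p := fun i => i = n)]
  intro h
  apply ha n
  have := map_eq_pure_of_mem (u := a) (f := id) (n := n) h
  rwa [map_id'] at this

theorem NonPrincipal.gt {a : Ultrafilter ℕ} (ha : NonPrincipal a) (n : ℕ) :
    ∀ᶠ i in (a : Filter ℕ), n < i := by
  induction n with
  | zero =>
    filter_upwards [ha.ne 0] with i hi
    omega
  | succ n ih =>
    filter_upwards [ih, ha.ne (n + 1)] with i hi hi'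
    omega

/-! ### A map fixing an ultrafilter is the identity on a set of the ultrafilter -/

theorem strictMono_iter {h : ℕ → ℕ} (hh : ∀ n, n < h n) (z : ℕ) :
    StrictMono fun k => h^[k] z := by
  apply strictMono_nat_of_lt_succ
  intro k
  rw [Function.iterate_succ_apply']
  exact hh _

/-- A two-colouring of the graph of a function with `n < h n`. -/
theorem exists_coloring {h : ℕ → ℕ} (hh : ∀ n, n < h n) : ∃ c : ℕ → Bool, ∀ n, c (h n) = !c n := by
  classical
  let R : Setoid ℕ :=
    { r := fun x y => ∃ a b, h^[a] x = h^[b] y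
      iseqv :=
        { refl := fun x => ⟨0, 0, rfl⟩
          symm := by
            rintro x y ⟨a, b, h⟩
            exact ⟨b, a, h.symm⟩
          trans := by
            rintro x y z ⟨a, b, h1⟩ ⟨c, d, h2⟩
            refine ⟨c + a, b + d, ?_⟩
            rw [Function.iterate_add_apply, h1, ← Function.iterate_add_apply, Nat.add_comm c b,
              Function.iterate_add_apply, h2, ← Function.iterate_add_apply] } }
  let r : ℕ → ℕ := fun x => (Quotient.mk R x).out
  have hr : ∀ x, ∃ a b, h^[a] x = h^[b] (r x) := by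
    intro x
    have : R (Quotient.mk R x).out x := Quotient.exact (Quotient.out_eq _)
    obtain ⟨a, b, hab⟩ := this
    exact ⟨b, a, hab.symm⟩
  choose a b hab using hr
  have hrh : ∀ x, r (h x) = r x := by
    intro x
    have : Quotient.mk R (h x) = Quotient.mk R x := Quotient.sound ⟨0, 1, rfl⟩
    simp only [r, this]
  refine ⟨fun x => decide (Even (a x + b x)), fun n => ?_⟩
  have h1 := hab n
  have h2 := hab (h n)
  rw [hrh n, ← Function.iterate_succ_apply] at h2
  -- `h^[a n] n = h^[b n] r`, `h^[a (h n) + 1] n = h^[b (h n)] r`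
  have key : a n + b (h n) = a (h n) + 1 + b n := by
    apply (strictMono_iter hh n).injective
    have e1 : h^[a n + b (h n)] n = h^[b n + b (h n)] (r n) := by
      rw [Nat.add_comm, Function.iterate_add_apply, h1, ← Function.iterate_add_apply,
        Nat.add_comm]
    have e2 : h^[a (h n) + 1 + b n] n = h^[b n + b (h n)] (r n) := by
      rw [Nat.add_comm, Function.iterate_add_apply]
      change h^[b n] (h^[(a (h n)).succ] n) = _
      rw [h2, ← Function.iterate_add_apply]
    change h^[a n + b (h n)] n = h^[a (h n) + 1 + b n] n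
    rw [e1, e2]
  have : Even (a (h n) + b (h n)) ↔ ¬ Even (a n + b n) := by
    rw [Nat.even_iff, Nat.even_iff]
    omega
  by_cases he : Even (a n + b n)
  · simp [he, this]
  · simp [he, this]

theorem ev_eq_of_map_eq {u : Ultrafilter ℕ} {h : ℕ → ℕ} (hu : u.map h = u) :
    ∀ᶠ n in (u : Filter ℕ), h n = n := by
  by_contra hne
  rw [not_ev] at hne
  have main : ∀ E : ℕ → Prop, (∀ᶠ n in (u : Filter ℕ), E n) → ∀ c : ℕ → Bool,
      (∀ n, E n → c (h n) = !c n) → False := by
    intro E hE c hc
    rcases em (∀ᶠ n in (u : Filter ℕ), c n = true) with h1 | h1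
    · have h2 : ∀ᶠ n in (u : Filter ℕ), c (h n) = true := by
        have : {n | c n = true} ∈ u.map h := by rw [hu]; exact h1
        exact this
      have h3 : ∀ᶠ n in (u : Filter ℕ), False := by
        filter_upwards [h1, h2, hE] with n n1 n2 n3
        have := hc n n3
        rw [n1, n2] at this
        simp at this
      rw [Filter.eventually_false_iff_eq_bot] at h3
      exact u.neBot.ne h3
    · rw [not_ev] at h1
      have h2 : ∀ᶠ n in (u : Filter ℕ), ¬ c (h n) = true := by
        have : {n | ¬ c n = true} ∈ u.map h := by rw [hu]; exact h1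
        exact this
      have h3 : ∀ᶠ n in (u : Filter ℕ), False := by
        filter_upwards [h1, h2, hE] with n n1 n2 n3
        have := hc n n3
        simp only [Bool.not_eq_true] at n1 n2
        rw [n1, n2] at this
        simp at this
      rw [Filter.eventually_false_iff_eq_bot] at h3
      exact u.neBot.ne h3
  rcases em (∀ᶠ n in (u : Filter ℕ), n < h n) with h1 | h1
  · let h' : ℕ → ℕ := fun n => if n < h n then h n else n + 1
    have hh' : ∀ n, n < h' n := by
      intro n
      simp only [h']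
      split_ifs with hn
      · exact hn
      · omega
    obtain ⟨c, hc⟩ := exists_coloring hh'
    refine main (fun n => n < h n) h1 c (fun n hn => ?_)
    have := hc n
    simp only [h', hn, if_true] at this
    exact this
  · rw [not_ev] at h1
    have h2 : ∀ᶠ n in (u : Filter ℕ), h n < n := by
      filter_upwards [h1, hne] with n n1 n2
      omega
    -- colouring by recursion
    have hcol : ∃ c : ℕ → Bool, ∀ n, h n < n → c (h n) = !c n := by
      have : ∃ c : ℕ → Bool, ∀ n, c n = if h n < n then !c (h n) else false := by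
        let F : (n : ℕ) → ((k : ℕ) → k < n → Bool) → Bool := fun n rec =>
          if hn : h n < n then !(rec (h n) hn) else false
        refine ⟨fun n => WellFounded.fix Nat.lt_wfRel.wf F n, fun n => ?_⟩
        change WellFounded.fix Nat.lt_wfRel.wf F n =
          if h n < n then !(WellFounded.fix Nat.lt_wfRel.wf F (h n)) else false
        rw [WellFounded.fix_eq]
        change (if hn : h n < n then !(WellFounded.fix Nat.lt_wfRel.wf F (h n)) else false) = _
        split_ifs <;> rfl
      obtain ⟨c, hc⟩ := this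
      refine ⟨c, fun n hn => ?_⟩
      have := hc n
      rw [if_pos hn] at this
      rw [this, Bool.not_not]
    obtain ⟨c, hc⟩ := hcol
    exact main (fun n => h n < n) h2 c hc

/-! ### Weak P-points and sums -/

theorem WeakPPoint.ev_eq {a : Ultrafilter ℕ} (ha : WeakPPoint a) {a' : Ultrafilter ℕ}
    {r : ℕ → Ultrafilter ℕ} (h : a = a'.bind r)
    (hr : ∀ᶠ i in (a' : Filter ℕ), NonPrincipal (r i)) :
    ∀ᶠ i in (a' : Filter ℕ), r i = a := by
  by_contra hne
  rw [not_ev] at hne
  refine ha.2 (r '' {i | NonPrincipal (r i) ∧ r i ≠ a}) ((Set.to_countable _).image r) ?_ ?_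
  · rintro _ ⟨i, hi, rfl⟩
    exact hi
  · rw [ultrafilterBasis_is_basis.mem_closure_iff]
    rintro o ⟨s, rfl⟩ hs
    have hs' : s ∈ a := hs
    rw [h, mem_bind] at hs'
    obtain ⟨i, h1, h2, h3⟩ := ((hs'.and hr).and hne).exists.imp fun i hi =>
      (⟨hi.1.1, hi.1.2, hi.2⟩ : s ∈ r i ∧ NonPrincipal (r i) ∧ r i ≠ a)
    exact ⟨r i, h1, ⟨i, ⟨h2, h3⟩, rfl⟩⟩

section Main

variable {a c : Ultrafilter ℕ} {x y : ℕ → Ultrafilter ℕ} {π ρ : ℕ → ℕ}

theorem eq_bind_of_discrete (hq : a.bind x = c.bind y)
    (hy : ∀ᶠ j in (c : Filter ℕ), (y j).map ρ = pure j) : c = a.bind fun i => (x i).map ρ := by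
  rw [← bind_map', hq, bind_map', bind_congr hy]
  have := bind_pure' c id
  rw [map_id'] at this
  exact this.symm

/-- The mixed case is impossible. -/
theorem mixed_false (ha : NonPrincipal a) (hq : a.bind x = c.bind y)
    (hx : ∀ᶠ i in (a : Filter ℕ), (x i).map π = pure i)
    (hy : ∀ᶠ j in (c : Filter ℕ), (y j).map ρ = pure j)
    (hr : ∀ᶠ i in (a : Filter ℕ), (x i).map ρ = c)
    (hs : ∀ᶠ j in (c : Filter ℕ), ∃ k, (y j).map π = pure k) : False := by
  classical
  have : ∀ j, ∃ k, (∃ k', (y j).map π = pure k') → (y j).map π = pure k := by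
    intro j
    by_cases h : ∃ k', (y j).map π = pure k'
    · obtain ⟨k, hk⟩ := h
      exact ⟨k, fun _ => hk⟩
    · exact ⟨0, fun h' => absurd h' h⟩
  choose t ht using this
  have hV : {z | π z = t (ρ z)} ∈ c.bind y := by
    rw [mem_bind]
    filter_upwards [hy, hs] with j h1 h2
    have h3 := mem_iff_of_map_eq_pure h1
    have h4 := mem_iff_of_map_eq_pure (ht j h2)
    filter_upwards [h3, h4] with z z1 z2
    change ρ z = j at z1
    change π z = t j at z2
    change π z = t (ρ z)
    rw [z1, z2]
  rw [← hq, mem_bind] at hV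
  have h5 : ∀ᶠ i in (a : Filter ℕ), {k | t k = i} ∈ c := by
    filter_upwards [hV, hx, hr] with i h1 h2 h3
    rw [← h3, Ultrafilter.mem_map]
    filter_upwards [h1, mem_iff_of_map_eq_pure h2] with z z1 z2
    change π z = t (ρ z) at z1
    change π z = i at z2
    change t (ρ z) = i
    rw [← z1, z2]
  obtain ⟨i, hi⟩ := h5.exists
  obtain ⟨i', hi', hne⟩ := (h5.and (ha.ne i)).exists
  have h6 : ∀ᶠ k in (c : Filter ℕ), False := by
    filter_upwards [hi, hi'] with k k1 k2
    change t k = i at k1
    change t k = i' at k2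
    exact hne (k2.symm.trans k1)
  rw [Filter.eventually_false_iff_eq_bot] at h6
  exact c.neBot.ne h6

/-- Two discrete representations of an ultrafilter along weak P-points agree. -/
theorem discrete_unique (ha : WeakPPoint a) (hc : WeakPPoint c) (hq : a.bind x = c.bind y)
    (hx : ∀ᶠ i in (a : Filter ℕ), (x i).map π = pure i)
    (hy : ∀ᶠ j in (c : Filter ℕ), (y j).map ρ = pure j) :
    Iso a c ∧ ∃ g : ℕ → ℕ, ∀ᶠ i in (a : Filter ℕ), x i = y (g i) := by
  classical
  have hcb : c = a.bind fun i => (x i).map ρ := eq_bind_of_discrete hq hy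
  have hab : a = c.bind fun j => (y j).map π := eq_bind_of_discrete hq.symm hx
  rcases em (∀ᶠ i in (a : Filter ℕ), NonPrincipal ((x i).map ρ)) with h1 | h1
  · have h1' := hc.ev_eq hcb h1
    rcases em (∀ᶠ j in (c : Filter ℕ), NonPrincipal ((y j).map π)) with h2 | h2
    · have h2' := ha.ev_eq hab h2
      exfalso
      have hU : {z | π z < ρ z} ∈ a.bind x := by
        rw [mem_bind]
        filter_upwards [hx, h1'] with i i1 i2
        have i3 : {z | i < ρ z} ∈ x i := by
          have : {k | i < k} ∈ (x i).map ρ := by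
            rw [i2]; exact hc.1.gt i
          exact this
        filter_upwards [mem_iff_of_map_eq_pure i1, i3] with z z1 z2
        change π z = i at z1
        change i < ρ z at z2
        change π z < ρ z
        omega
      have hU' : {z | ρ z < π z} ∈ c.bind y := by
        rw [mem_bind]
        filter_upwards [hy, h2'] with j j1 j2
        have j3 : {z | j < π z} ∈ y j := by
          have : {k | j < k} ∈ (y j).map π := by
            rw [j2]; exact ha.1.gt j
          exact this
        filter_upwards [mem_iff_of_map_eq_pure j1, j3] with z z1 z2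
        change ρ z = j at z1
        change j < π z at z2
        change ρ z < π z
        omega
      rw [hq] at hU
      have h6 : ∀ᶠ k in ((c.bind y : Ultrafilter ℕ) : Filter ℕ), False := by
        filter_upwards [hU, hU'] with k k1 k2
        change π k < ρ k at k1
        change ρ k < π k at k2
        omega
      rw [Filter.eventually_false_iff_eq_bot] at h6
      exact (c.bind y).neBot.ne h6
    · rw [not_ev] at h2
      exfalso
      refine mixed_false ha.1 hq hx hy h1' ?_
      filter_upwards [h2] with j hj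
      simpa [NonPrincipal] using hj
  · rw [not_ev] at h1
    have h1' : ∀ᶠ i in (a : Filter ℕ), ∃ k, (x i).map ρ = pure k := by
      filter_upwards [h1] with i hi
      simpa [NonPrincipal] using hi
    rcases em (∀ᶠ j in (c : Filter ℕ), NonPrincipal ((y j).map π)) with h2 | h2
    · have h2' := ha.ev_eq hab h2
      exfalso
      exact mixed_false hc.1 hq.symm hy hx h2' h1'
    · rw [not_ev] at h2
      have h2' : ∀ᶠ j in (c : Filter ℕ), ∃ k, (y j).map π = pure k := by
        filter_upwards [h2] with i hi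
        simpa [NonPrincipal] using hi
      have hch : ∀ (w : ℕ → Ultrafilter ℕ) (τ : ℕ → ℕ), ∃ g : ℕ → ℕ, ∀ i,
          (∃ k, (w i).map τ = pure k) → (w i).map τ = pure (g i) := by
        intro w τ
        have : ∀ j, ∃ k, (∃ k', (w j).map τ = pure k') → (w j).map τ = pure k := by
          intro j
          by_cases h : ∃ k', (w j).map τ = pure k'
          · obtain ⟨k, hk⟩ := h
            exact ⟨k, fun _ => hk⟩
          · exact ⟨0, fun h' => absurd h' h⟩
        choose g hg using this
        exact ⟨g, hg⟩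
      obtain ⟨g, hg⟩ := hch x ρ
      obtain ⟨t, ht⟩ := hch y π
      have hg' : ∀ᶠ i in (a : Filter ℕ), (x i).map ρ = pure (g i) := by
        filter_upwards [h1'] with i hi using hg i hi
      have ht' : ∀ᶠ j in (c : Filter ℕ), (y j).map π = pure (t j) := by
        filter_upwards [h2'] with i hi using ht i hi
      have hcg : c = a.map g := by
        rw [← bind_pure', ← bind_congr hg']
        exact hcb
      have hat : a = c.map t := by
        rw [← bind_pure', ← bind_congr ht']
        exact hab
      have htg : ∀ᶠ i in (a : Filter ℕ), t (g i) = i := by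
        apply ev_eq_of_map_eq (h := t ∘ g)
        rw [← map_map', ← hcg, ← hat]
      refine ⟨⟨⟨t, hat⟩, ⟨g, hcg⟩⟩, g, ?_⟩
      by_contra hne
      rw [not_ev] at hne
      have hS : ∀ i, ∃ s : Set ℕ, x i ≠ y (g i) → s ∈ x i ∧ s ∉ y (g i) := by
        intro i
        by_cases h : x i = y (g i)
        · exact ⟨∅, fun h' => absurd h h'⟩
        · by_contra hcon
          push Not at hcon
          apply h
          symm
          apply Ultrafilter.eq_of_le
          intro s hs
          exact (hcon s).2 hs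
      choose S hS using hS
      have hSx : {z | z ∈ S (π z)} ∈ a.bind x := by
        rw [mem_bind]
        filter_upwards [hx, hne] with i i1 i2
        filter_upwards [mem_iff_of_map_eq_pure i1, (hS i i2).1] with z z1 z2
        change π z = i at z1
        change z ∈ S (π z)
        rw [z1]; exact z2
      rw [hq, mem_bind] at hSx
      have hSy : ∀ᶠ j in (c : Filter ℕ), S (t j) ∈ y j := by
        filter_upwards [hSx, ht'] with j j1 j2
        filter_upwards [j1, mem_iff_of_map_eq_pure j2] with z z1 z2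
        change π z = t j at z2
        change z ∈ S (π z) at z1
        rwa [z2] at z1
      have hSy' : ∀ᶠ i in (a : Filter ℕ), S (t (g i)) ∈ y (g i) := by
        have : {j | S (t j) ∈ y j} ∈ a.map g := by
          rw [← hcg]; exact hSy
        exact this
      have h6 : ∀ᶠ i in (a : Filter ℕ), False := by
        filter_upwards [hSy', htg, hne] with i i1 i2 i3
        rw [i2] at i1
        exact (hS i i3).2 i1
      rw [Filter.eventually_false_iff_eq_bot] at h6
      exact a.neBot.ne h6

end Main

/-! ### Words -/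

/-- Auxiliary product with a neutral (principal) last factor. -/
def P : List (Ultrafilter ℕ) → Ultrafilter ℕ
  | [] => pure 0
  | a :: l => tensor a (P l)

theorem Iso.refl (u : Ultrafilter ℕ) : Iso u u := ⟨⟨id, (map_id' u).symm⟩, ⟨id, (map_id' u).symm⟩⟩

theorem Iso.symm {u v : Ultrafilter ℕ} (h : Iso u v) : Iso v u := ⟨h.2, h.1⟩

theorem RKLe.trans {u v w : Ultrafilter ℕ} (h1 : RKLe u v) (h2 : RKLe v w) : RKLe u w := by
  obtain ⟨f, rfl⟩ := h1
  obtain ⟨g, rfl⟩ := h2
  exact ⟨f ∘ g, rfl⟩

theorem Iso.trans {u v w : Ultrafilter ℕ} (h1 : Iso u v) (h2 : Iso v w) : Iso u w :=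
  ⟨h1.1.trans h2.1, h2.2.trans h1.2⟩

theorem RKLe.tensor_left {u v : Ultrafilter ℕ} (a : Ultrafilter ℕ) (h : RKLe u v) :
    RKLe (tensor a u) (tensor a v) := by
  obtain ⟨f, rfl⟩ := h
  refine ⟨fun z => Nat.pair (Nat.unpair z).1 (f (Nat.unpair z).2), ?_⟩
  unfold tensor
  rw [bind_map']
  congr 1
  funext i
  rw [map_map', map_map']
  congr 1
  funext j
  simp

theorem Iso.tensor_left {u v : Ultrafilter ℕ} (a : Ultrafilter ℕ) (h : Iso u v) :
    Iso (tensor a u) (tensor a v) := ⟨h.1.tensor_left a, h.2.tensor_left a⟩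

theorem iso_tensor_pure (a : Ultrafilter ℕ) : Iso a (tensor a (pure 0)) := by
  have h : tensor a (pure 0) = a.map fun i => Nat.pair i 0 := by
    rw [← bind_pure']
    rfl
  constructor
  · refine ⟨fun z => (Nat.unpair z).1, ?_⟩
    rw [h, map_map']
    have : ((fun z => (Nat.unpair z).1) ∘ fun i => Nat.pair i 0) = id := by
      funext i
      simp
    rw [this, map_id']
  · exact ⟨_, h⟩

theorem iso_wordProd : ∀ w : List (Ultrafilter ℕ), w ≠ [] → Iso (wordProd w) (P w)
  | [], h => absurd rfl h
  | [a], _ => iso_tensor_pure a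
  | a :: b :: l, _ => (iso_wordProd (b :: l) (by simp)).tensor_left a

theorem nonPrincipal_tensor {a u : Ultrafilter ℕ} (ha : NonPrincipal a) :
    NonPrincipal (tensor a u) := by
  intro n hn
  apply ha (Nat.unpair n).1
  have h1 : (tensor a u).map (fun z => (Nat.unpair z).1) = a := by
    unfold tensor
    rw [bind_map']
    have : (fun i => (u.map fun j => Nat.pair i j).map fun z => (Nat.unpair z).1) =
        fun i => (pure i : Ultrafilter ℕ) := by
      funext i
      apply map_eq_pure_of_mem
      rw [Ultrafilter.mem_map]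
      filter_upwards with j
      simp
    rw [this]
    have := bind_pure' a id
    rwa [map_id'] at this
  rw [← h1, hn, Ultrafilter.map_pure]

theorem Iso.nonPrincipal {u v : Ultrafilter ℕ} (h : Iso u v) (hu : NonPrincipal u) :
    NonPrincipal v := by
  intro n hn
  obtain ⟨f, hf⟩ := h.1
  apply hu (f n)
  rw [hf, hn, Ultrafilter.map_pure]

/-- The cancellation step. -/
theorem cancel {a b u v : Ultrafilter ℕ} (ha : WeakPPoint a) (hb : WeakPPoint b)
    (h : Iso (tensor a u) (tensor b v)) : Iso a b ∧ Iso u v := by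
  obtain ⟨⟨ψ, hψ⟩, ⟨φ, hφ⟩⟩ := h
  -- `tensor a u = (tensor b v).map ψ`, `tensor b v = (tensor a u).map φ`
  have hfix : ∀ᶠ z in ((tensor a u : Ultrafilter ℕ) : Filter ℕ), ψ (φ z) = z := by
    apply ev_eq_of_map_eq (h := ψ ∘ φ)
    rw [← map_map', ← hφ, ← hψ]
  have hfix' : ∀ᶠ i in (a : Filter ℕ), {j | ψ (φ (Nat.pair i j)) = Nat.pair i j} ∈ u := hfix
  have hq : (a.bind fun i => (u.map fun j => Nat.pair i j).map φ) =
      b.bind fun j => v.map fun k => Nat.pair j k := by
    rw [← bind_map']
    exact hφ.symm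
  obtain ⟨hiso, g, hg⟩ := discrete_unique (π := fun z => (Nat.unpair (ψ z)).1)
    (ρ := fun z => (Nat.unpair z).1) ha hb hq (by
      filter_upwards [hfix'] with i hi
      apply map_eq_pure_of_mem
      rw [Ultrafilter.mem_map, Set.preimage, Ultrafilter.mem_map]
      filter_upwards [hi] with j hj
      change ψ (φ (Nat.pair i j)) = Nat.pair i j at hj
      change (Nat.unpair (ψ (φ (Nat.pair i j)))).1 = i
      rw [hj, Nat.unpair_pair]) (by
      filter_upwards with j
      apply map_eq_pure_of_mem
      rw [Ultrafilter.mem_map]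
      filter_upwards with k
      simp)
  refine ⟨hiso, ?_⟩
  obtain ⟨i, hi, hi'⟩ := (hg.and hfix').exists
  constructor
  · -- `u` below `v`
    refine ⟨fun k => (Nat.unpair (ψ (Nat.pair (g i) k))).2, ?_⟩
    have h1 : (v.map fun k => Nat.pair (g i) k).map (fun z => (Nat.unpair (ψ z)).2) =
        v.map fun k => (Nat.unpair (ψ (Nat.pair (g i) k))).2 := rfl
    rw [← h1, ← hi, map_map', map_map']
    have h2 : u = u.map id := (map_id' u).symm
    conv_lhs => rw [h2]
    apply map_congr
    filter_upwards [hi'] with j hj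
    change ψ (φ (Nat.pair i j)) = Nat.pair i j at hj
    change j = (Nat.unpair (ψ (φ (Nat.pair i j)))).2
    rw [hj, Nat.unpair_pair]
  · refine ⟨fun j => (Nat.unpair (φ (Nat.pair i j))).2, ?_⟩
    have h1 : ((u.map fun j => Nat.pair i j).map φ).map (fun z => (Nat.unpair z).2) =
        u.map fun j => (Nat.unpair (φ (Nat.pair i j))).2 := rfl
    rw [← h1, hi, map_map']
    have h2 : v = v.map id := (map_id' v).symm
    conv_lhs => rw [h2]
    apply map_congr
    filter_upwards with k
    simp

theorem P_injective {A : Set (Ultrafilter ℕ)} (hA : ∀ u ∈ A, WeakPPoint u)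
    (hne : ∀ u ∈ A, ∀ v ∈ A, u ≠ v → ¬ Iso u v) :
    ∀ w w' : List (Ultrafilter ℕ), (∀ a ∈ w, a ∈ A) → (∀ b ∈ w', b ∈ A) →
      Iso (P w) (P w') → w = w'
  | [], [], _, _, _ => rfl
  | [], b :: l, _, h2, h => by
    exfalso
    have hb := (hA b (h2 b (by simp))).1
    exact h.symm.nonPrincipal (nonPrincipal_tensor hb) 0 rfl
  | a :: l, [], h1, _, h => by
    exfalso
    have ha := (hA a (h1 a (by simp))).1
    exact h.nonPrincipal (nonPrincipal_tensor ha) 0 rfl
  | a :: l, b :: l', h1, h2, h => by
    obtain ⟨h3, h4⟩ := cancel (hA a (h1 a (by simp))) (hA b (h2 b (by simp))) h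
    have hab : a = b := by
      by_contra hab
      exact hne a (h1 a (by simp)) b (h2 b (by simp)) hab h3
    have hl := P_injective hA hne l l' (fun x hx => h1 x (by simp [hx]))
      (fun x hx => h2 x (by simp [hx])) h4
    rw [hab, hl]

/-- **Pairwise non-isomorphic weak P-points generate a free semigroup up to isomorphism.**
If `A` is a set of weak P-points no two different members of which are isomorphic (in particular
if they are pairwise Rudin-Keisler incomparable), then `a₁ ⊗ ⋯ ⊗ aₘ ≅ b₁ ⊗ ⋯ ⊗ bₙ` with all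
`aᵢ, bⱼ ∈ A` implies `m = n` and `aᵢ = bᵢ` for all `i`. -/
theorem result (A : Set (Ultrafilter ℕ)) (hA : ∀ u ∈ A, WeakPPoint u)
    (hne : ∀ u ∈ A, ∀ v ∈ A, u ≠ v → ¬ Iso u v) (w w' : List (Ultrafilter ℕ))
    (hw : w ≠ []) (hw' : w' ≠ []) (hwA : ∀ a ∈ w, a ∈ A) (hwA' : ∀ b ∈ w', b ∈ A)
    (h : Iso (wordProd w) (wordProd w')) : w = w' :=
  P_injective hA hne w w' hwA hwA'
    (((iso_wordProd w hw).symm.trans h).trans (iso_wordProd w' hw'))

end Pool.Agent.Results.MP_55c7a7_lc.FreeSemigroup
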